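import Mathlib

/-!
# A counterexample to the upper bound for modified EGZ constants

Take a cap of nine points in the affine space `(ℤ/3)^3` (no three distinct points sum to zero),
take each point twice and drop one copy of one point: this gives `17` terms with no zero-sum
subsequence of length `3`. Since `17` is not divisible by `3` a translation makes the sequence
zero-sum. The bound in question for `n = 3`, `t = 1`, `d = 3` is `(1 + 8 - 1) * 3 - 8 + 1 = 17`.
-/

set_option autoImplicit false

namespace Pool.Agent.Results.MP_b34cfe_co.CapCounterexample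

/-- The translated cap. -/
def cap : List (Fin 3 → ZMod 3) :=
  [![1, 2, 1], ![1, 2, 2], ![1, 0, 1], ![1, 0, 2], ![2, 2, 1], ![2, 2, 2], ![2, 0, 0], ![2, 1, 0]]

/-- The sequence of length `17`. -/
def seq : Multiset (Fin 3 → ZMod 3) := ((![0, 0, 0] :: (cap ++ cap)) : List (Fin 3 → ZMod 3))

theorem seq_card : seq.card = 17 := by decide

theorem seq_sum : seq.sum = 0 := by decide

theorem seq_free : ∀ T ∈ Multiset.powersetCard 3 seq, T.sum ≠ 0 := by
  decide +kernel

/-- There are positive integers `n, t, d`, the least integer `l ≥ 2 ^ d` that does not divide `n`,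
and a zero-sum sequence `S` over `(ℤ/n)^d` of length at least `(t + 2 ^ d - 1) n - l + 1` without a
zero-sum subsequence of length `n t`. -/
theorem result :
    ∃ n t d l : ℕ, 0 < n ∧ 0 < t ∧ 0 < d ∧ IsLeast {l : ℕ | 2 ^ d ≤ l ∧ ¬ l ∣ n} l ∧
      ∃ S : Multiset (Fin d → ZMod n), S.sum = 0 ∧
        ((t : ℤ) + 2 ^ d - 1) * n - l + 1 ≤ (S.card : ℤ) ∧
        ¬ ∃ T ≤ S, T.card = n * t ∧ T.sum = 0 := by
  refine ⟨3, 1, 3, 8, by norm_num, by norm_num, by norm_num, ⟨⟨by norm_num, by norm_num⟩, ?_⟩,
    seq, seq_sum, ?_, ?_⟩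
  · rintro l ⟨hl, -⟩
    simpa using hl
  · rw [seq_card]; norm_num
  · rintro ⟨T, hT, hc, hs⟩
    exact seq_free T (Multiset.mem_powersetCard.2 ⟨hT, by simpa using hc⟩) hs

end Pool.Agent.Results.MP_b34cfe_co.CapCounterexample
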